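import Pool.Agent.K1H33.RM.Cnt
import Pool.Agent.K1H79.RF.Stm3

/-! # task 539: `S_RM` -/

set_option autoImplicit false

namespace Pool.Agent.K1H33.RM

theorem t_RM : Pool.Agent.K1H79.RF.S_RM := main

end Pool.Agent.K1H33.RM
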