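import Pool.Agent.TH847.LG.Eul
import Pool.Agent.H568.GR.Cnb

/-! # The number of ideals of given norm is at most `C m^ε`, uniformly in the field -/

set_option autoImplicit false

namespace Pool.Agent.K1H33.RM

open NumberField Finset Pool.Agent.TH847.LS UniqueFactorizationMonoid
open scoped Classical

variable {K : Type} [Field K] [NumberField K]

/-- the primes above `p` of norm at most `m` -/
noncomputable def fib (K : Type) [Field K] [NumberField K] (m p : ℕ) : Finset (Ideal (𝓞 K)) :=
  (PI K m).filter (fun P => (Ideal.absNorm P).minFac = p)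

/-- the exponents at the primes above the prime factors of `m` -/
noncomputable def code (m d : ℕ) (J : Ideal (𝓞 K)) :
    Fin d → (p : m.primeFactors) → Fin (m.factorization p + 1) :=
  fun i p => ⟨min ((normalizedFactors J).count ((fib K m p).toList.getD i ⊥)) (m.factorization p),
    Nat.lt_succ_of_le (min_le_right _ _)⟩

theorem count_le {m : ℕ} (hm : m ≠ 0) {J : Ideal (𝓞 K)} (hJ : Ideal.absNorm J = m)
    {P : Ideal (𝓞 K)} (h0 : P ≠ ⊥) (hP : P.IsPrime) :
    (normalizedFactors J).count P ≤ m.factorization (Ideal.absNorm P).minFac := by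
  obtain ⟨n, hn, hp, he, _⟩ := norm_pow h0 hP
  have hJ0 : J ≠ 0 := by
    rintro rfl
    rw [Ideal.zero_eq_bot, Ideal.absNorm_bot] at hJ
    exact hm hJ.symm
  have h1 : P ^ ((normalizedFactors J).count P) ∣ J := by
    have h2 : Multiset.replicate ((normalizedFactors J).count P) P ≤ normalizedFactors J :=
      Multiset.le_count_iff_replicate_le.1 le_rfl
    have h3 := Multiset.prod_dvd_prod_of_le h2
    rw [Multiset.prod_replicate] at h3
    exact h3.trans (prod_normalizedFactors hJ0).dvd
  have h2 : Ideal.absNorm P ^ ((normalizedFactors J).count P) ∣ m := by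
    rw [← hJ, ← map_pow]
    exact Ideal.absNorm_dvd_absNorm_of_le (Ideal.le_of_dvd h1)
  have h3 : (Ideal.absNorm P).minFac ^ ((normalizedFactors J).count P) ∣ m := by
    refine dvd_trans (pow_dvd_pow_of_dvd ?_ _) h2
    exact Nat.minFac_dvd _
  exact (hp.pow_dvd_iff_le_factorization hm).1 h3

theorem norm_le {m : ℕ} {J : Ideal (𝓞 K)} (hJ : Ideal.absNorm J = m)
    {P : Ideal (𝓞 K)} (hc : (normalizedFactors J).count P ≠ 0) : Ideal.absNorm P ∣ m := by
  have h1 : P ∈ normalizedFactors J := Multiset.count_pos.1 (Nat.pos_of_ne_zero hc)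
  rw [← hJ]
  exact Ideal.absNorm_dvd_absNorm_of_le (Ideal.le_of_dvd (dvd_of_mem_normalizedFactors h1))

theorem code_inj {m d : ℕ} (hd : Module.finrank ℚ K = d) (hm : m ≠ 0) {J J' : Ideal (𝓞 K)}
    (hJ : Ideal.absNorm J = m) (hJ' : Ideal.absNorm J' = m) (h : code m d J = code m d J') :
    J = J' := by
  have h0 : ∀ I : Ideal (𝓞 K), Ideal.absNorm I = m → I ≠ 0 := by
    rintro I hI rfl
    rw [Ideal.zero_eq_bot, Ideal.absNorm_bot] at hI
    exact hm hI.symm
  have key : normalizedFactors J = normalizedFactors J' := by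
    ext P
    by_cases hP : P.IsPrime ∧ P ≠ ⊥
    · by_cases hdv : Ideal.absNorm P ∣ m
      · obtain ⟨n, hn, hp, he, _⟩ := norm_pow hP.2 hP.1
        set p := (Ideal.absNorm P).minFac with hpdef
        have hpm : p ∣ m := (Nat.minFac_dvd _).trans hdv
        have hmem : P ∈ fib K m p := by
          unfold fib
          rw [mem_filter, mem_PI]
          exact ⟨⟨⟨Nat.le_of_dvd (Nat.pos_of_ne_zero hm) hdv, hP.2⟩, hP.1⟩, rfl⟩
        obtain ⟨i, hi, hiP⟩ := List.getElem_of_mem (Finset.mem_toList.2 hmem)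
        have hid : i < d := by
          refine lt_of_lt_of_le hi ?_
          rw [Finset.length_toList]
          exact Pool.Agent.TH847.LG.card_fiber hd m p
        have h1 := congrFun (congrFun h ⟨i, hid⟩) ⟨p, Nat.mem_primeFactors.2 ⟨hp, hpm, hm⟩⟩
        unfold code at h1
        rw [Fin.mk.injEq] at h1
        have h2 : (fib K m p).toList.getD i ⊥ = P := by
          rw [List.getD_eq_getElem _ _ hi, hiP]
        simp only [h2] at h1
        rw [min_eq_left (count_le hm hJ hP.2 hP.1), min_eq_left (count_le hm hJ' hP.2 hP.1)] at h1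
        exact h1
      · have h1 : (normalizedFactors J).count P = 0 := by
          by_contra hc
          exact hdv (norm_le hJ hc)
        have h2 : (normalizedFactors J').count P = 0 := by
          by_contra hc
          exact hdv (norm_le hJ' hc)
        rw [h1, h2]
    · have h2 : ∀ L : Ideal (𝓞 K), P ∉ normalizedFactors L := by
        intro L hL
        have hPp : Prime P := prime_of_normalized_factor P hL
        exact hP ⟨Ideal.isPrime_of_prime hPp, hPp.ne_zero⟩
      rw [Multiset.count_eq_zero.2 (h2 J), Multiset.count_eq_zero.2 (h2 J')]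
  rw [← Ideal.prod_normalizedFactors_eq_self (h0 J hJ), ← Ideal.prod_normalizedFactors_eq_self
    (h0 J' hJ'), key]

theorem card_le {m d : ℕ} (hd : Module.finrank ℚ K = d) (hm : m ≠ 0) :
    Nat.card {J : Ideal (𝓞 K) // Ideal.absNorm J = m} ≤ m.divisors.card ^ d := by
  have h1 : Nat.card {J : Ideal (𝓞 K) // Ideal.absNorm J = m} ≤
      Nat.card (Fin d → (p : m.primeFactors) → Fin (m.factorization p + 1)) := by
    refine Nat.card_le_card_of_injective (fun J => code m d J.1) ?_
    intro J J' h
    exact Subtype.ext (code_inj hd hm J.2 J'.2 h)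
  refine h1.trans (le_of_eq ?_)
  rw [Nat.card_eq_fintype_card, Fintype.card_fun, Fintype.card_pi, Fintype.card_fin,
    Nat.card_divisors hm]
  congr 1
  simp only [Fintype.card_fin]
  exact Finset.prod_coe_sort m.primeFactors (fun p => m.factorization p + 1)

theorem main (d : ℕ) (ε : ℝ) (hε : 0 < ε) : ∃ C : ℝ, 0 < C ∧
    ∀ (K : Type) [Field K] [NumberField K], Module.finrank ℚ K = d → ∀ m : ℕ, 1 ≤ m →
    (Nat.card {J : Ideal (𝓞 K) // Ideal.absNorm J = m} : ℝ) ≤ C * (m : ℝ) ^ ε := by
  obtain ⟨C, hC, h⟩ := Pool.Agent.H568.GR.dvb (ε / (d + 1)) (by positivity)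
  refine ⟨C ^ d, by positivity, fun K _ _ hK m hm => ?_⟩
  have h1 := h m hm
  have h2 := card_le hK (show m ≠ 0 by omega)
  have hm1 : (1:ℝ) ≤ m := by exact_mod_cast hm
  calc (Nat.card {J : Ideal (𝓞 K) // Ideal.absNorm J = m} : ℝ) ≤ ((m.divisors.card ^ d : ℕ) : ℝ) := by
        exact_mod_cast h2
    _ = (m.divisors.card : ℝ) ^ d := by push_cast; rfl
    _ ≤ (C * (m : ℝ) ^ (ε / (d + 1))) ^ d := by gcongr
    _ = C ^ d * (m : ℝ) ^ (ε / (d + 1) * d) := by
        rw [mul_pow, ← Real.rpow_natCast ((m : ℝ) ^ (ε / (d + 1))) d, ← Real.rpow_mul (by positivity)]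
    _ ≤ C ^ d * (m : ℝ) ^ ε := by
        have h3 : ε / (d + 1) * d ≤ ε := by
          rw [div_mul_eq_mul_div, div_le_iff₀ (by positivity)]
          nlinarith
        gcongr

end Pool.Agent.K1H33.RM
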